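import Pool.Agent.H239R2.Cover.Orient

/-!
# Star decompositions from edge-disjoint spanning trees
-/

set_option autoImplicit false

namespace Pool.Agent.U435.Star

open SimpleGraph Finset
open Pool.Agent.H239R2.Cover (orientation_of_packing Connects Leaves tail outdeg)

/-- In a tree with a centre adjacent to all other vertices, all edges contain the centre. -/
theorem star_edges {W : Type} [Fintype W] [DecidableEq W] (T : SimpleGraph W)
    [DecidableRel T.Adj] (hT : T.IsTree) (c : W) (hc : ∀ w, w ≠ c → T.Adj c w) :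
    T.edgeFinset = (univ.erase c).image (fun w => s(c, w)) := by
  symm
  apply Finset.eq_of_subset_of_card_le
  · intro e he
    obtain ⟨w, hw, rfl⟩ := Finset.mem_image.mp he
    rw [mem_edgeFinset, mem_edgeSet]
    exact hc w (Finset.ne_of_mem_erase hw)
  · have h1 := hT.card_edgeFinset
    rw [Finset.card_image_of_injective _ (fun a b h => by
      rcases Sym2.eq_iff.mp h with h | h
      · exact h.2
      · exact h.2.trans h.1), Finset.card_erase_of_mem (Finset.mem_univ c), Finset.card_univ]
    omega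

theorem star_copy {V W : Type} [Fintype V] [DecidableEq V] [Fintype W] [DecidableEq W]
    (G : SimpleGraph V) (T : SimpleGraph W)
    [DecidableRel T.Adj] (hT : T.IsTree) (c : W) (hc : ∀ w, w ≠ c → T.Adj c w) (v : V)
    (B : Finset (Sym2 V)) (hB : ∀ e ∈ B, e ∈ G.edgeSet ∧ v ∈ e)
    (hcard : B.card = T.edgeFinset.card) :
    ∃ H : G.Subgraph, Nonempty (T ≃g H.coe) ∧ H.edgeSet = (B : Set (Sym2 V)) := by
  classical
  let N : Finset V := univ.filter (fun u => s(v, u) ∈ B)
  have hN : N.image (fun u => s(v, u)) = B := by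
    ext e
    simp only [N, Finset.mem_image, Finset.mem_filter, Finset.mem_univ, true_and]
    constructor
    · rintro ⟨u, hu, rfl⟩; exact hu
    · intro he
      obtain ⟨u, rfl⟩ := (hB e he).2
      exact ⟨u, he, rfl⟩
  have hinj : Function.Injective (fun u : V => s(v, u)) := fun a b h => by
    rcases Sym2.eq_iff.mp h with h | h
    · exact h.2
    · exact h.2.trans h.1
  have hNc : N.card = B.card := by rw [← hN, Finset.card_image_of_injective _ hinj]
  have hvN : ∀ u ∈ N, G.Adj v u := by
    intro u hu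
    have : s(v, u) ∈ B := (Finset.mem_filter.mp hu).2
    exact (hB _ this).1
  have hTc : T.edgeFinset.card = Fintype.card W - 1 := by
    have h1 := hT.card_edgeFinset
    omega
  have hcW : Fintype.card {w : W // w ≠ c} = Fintype.card N := by
    rw [Fintype.card_coe, hNc, hcard, hTc]
    simp
  let β : {w : W // w ≠ c} ≃ N := Fintype.equivOfCardEq hcW
  let φ : W → V := fun w => if h : w = c then v else (β ⟨w, h⟩ : V)
  have hφc : φ c = v := by simp [φ]
  have hφ : ∀ w (h : w ≠ c), φ w = (β ⟨w, h⟩ : V) := by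
    intro w h
    simp [φ, h]
  have hφv : ∀ w, w ≠ c → G.Adj v (φ w) := by
    intro w h
    rw [hφ w h]
    exact hvN _ (β ⟨w, h⟩).2
  have hφinj : Function.Injective φ := by
    intro a b h
    by_cases ha : a = c <;> by_cases hb : b = c
    · rw [ha, hb]
    · subst ha
      rw [hφc] at h
      exact absurd h (hφv b hb).ne
    · subst hb
      rw [hφc] at h
      exact absurd h.symm (hφv a ha).ne
    · rw [hφ a ha, hφ b hb] at h
      have := β.injective (Subtype.ext h)
      exact congrArg Subtype.val this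
  have hE := star_edges T hT c hc
  have hadj : ∀ a b, T.Adj a b → (a = c ∧ b ≠ c) ∨ (b = c ∧ a ≠ c) := by
    intro a b hab
    have h1 : s(a, b) ∈ T.edgeFinset := by rw [mem_edgeFinset]; exact hab
    rw [hE, Finset.mem_image] at h1
    obtain ⟨w, hw, h⟩ := h1
    have hw' := Finset.ne_of_mem_erase hw
    rcases Sym2.eq_iff.mp h with ⟨rfl, rfl⟩ | ⟨rfl, rfl⟩
    · exact Or.inl ⟨rfl, hw'⟩
    · exact Or.inr ⟨rfl, hw'⟩
  let f : T →g G := ⟨φ, by
    intro a b hab
    rcases hadj a b hab with ⟨rfl, hb⟩ | ⟨rfl, ha⟩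
    · rw [hφc]; exact hφv b hb
    · rw [hφc]; exact (hφv a ha).symm⟩
  let F : Copy T G := ⟨f, hφinj⟩
  refine ⟨F.toSubgraph, ⟨F.isoToSubgraph⟩, ?_⟩
  ext e
  rw [Copy.toSubgraph, Subgraph.edgeSet_map]
  simp only [Subgraph.edgeSet_top, Set.mem_image, Finset.mem_coe]
  constructor
  · rintro ⟨x, hx, rfl⟩
    induction x with
    | _ a b =>
      have hab : T.Adj a b := hx
      have key : ∀ w, w ≠ c → s(v, φ w) ∈ B := by
        intro w hw
        rw [hφ w hw]
        exact (Finset.mem_filter.mp (β ⟨w, hw⟩).2).2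
      show s(φ a, φ b) ∈ B
      rcases hadj a b hab with ⟨rfl, hb⟩ | ⟨rfl, ha⟩
      · rw [hφc]; exact key b hb
      · rw [hφc, Sym2.eq_swap]; exact key a ha
  · intro he
    obtain ⟨u, rfl⟩ := (hB e he).2
    have hu : u ∈ N := Finset.mem_filter.mpr ⟨Finset.mem_univ _, he⟩
    refine ⟨s(c, (β.symm ⟨u, hu⟩).1), hc _ (β.symm ⟨u, hu⟩).2, ?_⟩
    show s(φ c, φ (β.symm ⟨u, hu⟩).1) = s(v, u)
    rw [hφc, hφ _ (β.symm ⟨u, hu⟩).2]
    simp

theorem split_set {E : Type} [DecidableEq E] (k : ℕ) : ∀ (q : ℕ) (O : Finset E), O.card = k * q →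
    ∃ f : Fin q → Finset E, (∀ i, (f i).card = k ∧ f i ⊆ O) ∧
      (∀ i j, i ≠ j → Disjoint (f i) (f j)) ∧ ∀ e ∈ O, ∃ i, e ∈ f i := by
  intro q
  induction q with
  | zero =>
    intro O hO
    have : O = ∅ := by
      rw [← Finset.card_eq_zero, hO, mul_zero]
    subst this
    exact ⟨fun i => i.elim0, fun i => i.elim0, fun i => i.elim0, fun e he => by simp at he⟩
  | succ q ih =>
    intro O hO
    obtain ⟨B, hB, hBc⟩ := Finset.exists_subset_card_eq (s := O) (n := k)
      (by rw [hO, Nat.mul_succ]; omega)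
    obtain ⟨f, hf1, hf2, hf3⟩ := ih (O \ B) (by
      rw [Finset.card_sdiff_of_subset hB, hO, hBc, Nat.mul_succ]; omega)
    refine ⟨Fin.cons B f, ?_, ?_, ?_⟩
    · intro i
      refine Fin.cases ?_ (fun j => ?_) i
      · simp only [Fin.cons_zero]; exact ⟨hBc, hB⟩
      · simp only [Fin.cons_succ]
        exact ⟨(hf1 j).1, (hf1 j).2.trans Finset.sdiff_subset⟩
    · intro i j
      refine Fin.cases ?_ (fun i' => ?_) i <;> refine Fin.cases ?_ (fun j' => ?_) j
      · intro h; exact absurd rfl h
      · intro _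
        simp only [Fin.cons_zero, Fin.cons_succ]
        exact Finset.disjoint_of_subset_right (hf1 j').2 Finset.disjoint_sdiff
      · intro _
        simp only [Fin.cons_zero, Fin.cons_succ]
        exact (Finset.disjoint_of_subset_right (hf1 i').2 Finset.disjoint_sdiff).symm
      · intro h
        simp only [Fin.cons_succ]
        exact hf2 i' j' (fun h' => h (by rw [h']))
    · intro e he
      by_cases h : e ∈ B
      · exact ⟨0, by simpa using h⟩
      · obtain ⟨i, hi⟩ := hf3 e (Finset.mem_sdiff.mpr ⟨he, h⟩)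
        exact ⟨i.succ, by simpa using hi⟩

theorem star_decomposition {V : Type} [Fintype V] [DecidableEq V] (G : SimpleGraph V)
    [DecidableRel G.Adj] {W : Type} [Fintype W] [DecidableEq W] (T : SimpleGraph W)
    [DecidableRel T.Adj] (hT : T.IsTree) (c : W) (hc : ∀ w, w ≠ c → T.Adj c w)
    (F : Fin T.edgeFinset.card → SimpleGraph V)
    (hF : ∀ i, F i ≤ G ∧ (F i).Connected)
    (hd : Pairwise (fun i j => Disjoint (F i) (F j)))
    (hdvd : T.edgeFinset.card ∣ G.edgeFinset.card) :
    ∃ (n : ℕ) (H : Fin n → G.Subgraph),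
      (∀ i, Nonempty (T ≃g (H i).coe)) ∧
      Pairwise (fun i j => Disjoint (H i).edgeSet (H j).edgeSet) ∧
      (∀ e ∈ G.edgeSet, ∃ i, e ∈ (H i).edgeSet) := by
  classical
  generalize hk : T.edgeFinset.card = k at F hF hd hdvd
  rcases Nat.eq_zero_or_pos k with hk0 | hk0
  · subst hk0
    have h1 : G.edgeFinset.card = 0 := Nat.eq_zero_of_zero_dvd hdvd
    refine ⟨0, fun i => i.elim0, fun i => i.elim0, fun i => i.elim0, fun e he => ?_⟩
    rw [Finset.card_eq_zero] at h1
    have : e ∈ G.edgeFinset := by rwa [mem_edgeFinset]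
    rw [h1] at this
    simp at this
  · let src : G.edgeSet → V := fun e => (Quot.out e.1).1
    let dst : G.edgeSet → V := fun e => (Quot.out e.1).2
    have hsd : ∀ e : G.edgeSet, s(src e, dst e) = e.1 := fun e => Quot.out_eq e.1
    obtain ⟨o, ho⟩ := orientation_of_packing src dst k hk0
      (fun i => univ.filter (fun e => e.1 ∈ (F i).edgeSet))
      (by
        intro i j hij
        rw [Finset.disjoint_left]
        intro e he he'
        have h1 := (Finset.mem_filter.mp he).2
        have h2 := (Finset.mem_filter.mp he').2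
        have h3 : Disjoint (F i) (F j) := hd hij
        rw [← SimpleGraph.disjoint_edgeSet] at h3
        exact Set.disjoint_left.mp h3 h1 h2)
      (by
        intro j X hX hXu
        obtain ⟨a, ha⟩ := hX
        obtain ⟨b, hb⟩ : ∃ b, b ∉ X := by
          by_contra hcon
          push Not at hcon
          exact hXu (Finset.eq_univ_of_forall hcon)
        obtain ⟨w⟩ := (hF j).2.preconnected a b
        obtain ⟨d, -, hd1, hd2⟩ := w.exists_boundary_dart (X : Set V) ha hb
        have hadj : (F j).Adj d.fst d.snd := d.adj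
        have hG : s(d.fst, d.snd) ∈ G.edgeSet := (hF j).1 hadj
        refine ⟨⟨s(d.fst, d.snd), hG⟩, ?_, ?_⟩
        · simp only [Finset.mem_filter, Finset.mem_univ, true_and]
          exact hadj
        · intro h
          have h2 := hsd ⟨s(d.fst, d.snd), hG⟩
          rcases Sym2.eq_iff.mp h2 with ⟨h3, h4⟩ | ⟨h3, h4⟩
          · rw [h3, h4] at h
            exact hd2 (h.mp hd1)
          · rw [h3, h4] at h
            exact hd2 (h.mpr hd1))
      (fun _ => 0)
      (by
        rw [Finset.sum_const_zero]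
        symm
        rw [ZMod.natCast_eq_zero_iff]
        rw [← SimpleGraph.edgeFinset_card] 
        exact hdvd)
    have ho' : ∀ v, k ∣ outdeg src dst o v := fun v => (ZMod.natCast_eq_zero_iff _ _).mp (ho v)
    have hsplit : ∀ v, ∃ (q : ℕ) (f : Fin q → Finset G.edgeSet),
        (∀ i, (f i).card = k ∧ f i ⊆ univ.filter (fun e => tail src dst o e = v)) ∧
        (∀ i j, i ≠ j → Disjoint (f i) (f j)) ∧
        ∀ e, tail src dst o e = v → ∃ i, e ∈ f i := by
      intro v
      obtain ⟨q, hq⟩ := ho' v
      obtain ⟨f, h1, h2, h3⟩ := split_set k q (univ.filter (fun e => tail src dst o e = v)) hq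
      exact ⟨q, f, h1, h2, fun e he => h3 e (Finset.mem_filter.mpr ⟨Finset.mem_univ _, he⟩)⟩
    choose q f hf1 hf2 hf3 using hsplit
    have htail : ∀ e : G.edgeSet, tail src dst o e ∈ e.1 := by
      intro e
      unfold tail
      rw [← hsd e]
      split_ifs
      · exact Sym2.mem_mk_left _ _
      · exact Sym2.mem_mk_right _ _
    have hcopy : ∀ x : (Σ v, Fin (q v)), ∃ H : G.Subgraph, Nonempty (T ≃g H.coe) ∧
        H.edgeSet = (((f x.1 x.2).image Subtype.val : Finset (Sym2 V)) : Set (Sym2 V)) := by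
      rintro ⟨v, i⟩
      refine star_copy G T hT c hc v _ ?_ ?_
      · intro e he
        obtain ⟨e', he', rfl⟩ := Finset.mem_image.mp he
        refine ⟨e'.2, ?_⟩
        have := (Finset.mem_filter.mp ((hf1 v i).2 he')).2
        rw [← this]
        exact htail e'
      · rw [Finset.card_image_of_injective _ Subtype.val_injective, (hf1 v i).1, hk]
    choose H hH1 hH2 using hcopy
    let en : Fin (Fintype.card (Σ v, Fin (q v))) ≃ (Σ v, Fin (q v)) :=
      (Fintype.equivFin _).symm
    refine ⟨_, fun i => H (en i), fun i => hH1 _, ?_, ?_⟩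
    · intro i j hij
      rw [hH2, hH2, Finset.disjoint_coe, Finset.disjoint_left]
      intro e he he'
      obtain ⟨e1, h1, rfl⟩ := Finset.mem_image.mp he
      obtain ⟨e2, h2, h3⟩ := Finset.mem_image.mp he'
      have h4 : e2 = e1 := Subtype.ext h3
      subst h4
      have hne : en i ≠ en j := fun h => hij (en.injective h)
      have t1 := (Finset.mem_filter.mp ((hf1 _ _).2 h1)).2
      have t2 := (Finset.mem_filter.mp ((hf1 _ _).2 h2)).2
      generalize en i = x at *
      generalize en j = y at *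
      obtain ⟨v, i'⟩ := x
      obtain ⟨v', j'⟩ := y
      have hvv : v = v' := t1.symm.trans t2
      subst hvv
      have hne' : i' ≠ j' := fun h => hne (by rw [h])
      exact Finset.disjoint_left.mp (hf2 v i' j' hne') h1 h2
    · intro e he
      obtain ⟨i, hi⟩ := hf3 (tail src dst o ⟨e, he⟩) ⟨e, he⟩ rfl
      refine ⟨en.symm ⟨_, i⟩, ?_⟩
      show e ∈ (H (en (en.symm _))).edgeSet
      rw [Equiv.apply_symm_apply, hH2]
      exact Finset.mem_coe.mpr (Finset.mem_image.mpr ⟨⟨e, he⟩, hi, rfl⟩)

end Pool.Agent.U435.Star
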